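import Pool.Agent.Q61.ND.All

/-!
# A non-parabolic distributional solution with an autonomous drift in `L²(𝕋²)`

The torus is `ℝ² / ℤ²`; functions on it are functions on `P = ℝ × ℝ` with period `1` in both
variables (`Per`), and integrals over the torus are integrals over the unit square `Q = [0,1)²`.
`dt`, `dx`, `dy`, `lap` are the time derivative, the two space derivatives and the Laplacian
(`Pool/Agent/Q61/AD/Def.lean`); `D b Φ = ∂_t Φ + b · ∇Φ + ΔΦ`.
-/

set_option autoImplicit false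

open MeasureTheory Set

namespace Pool.Agent.Results.MP_fe2fb1_an.AutonomousNonparabolic

open Pool.Agent.Q61.AD (P Q Per dx dy Tst D)

/-- Autonomous square integrable fields on the torus. -/
def FieldL2 (b : P → P) : Prop :=
  Measurable b ∧ Per b ∧ IntegrableOn (fun x => ‖b x‖ ^ 2) Q

/-- Divergence-free fields on the torus: `∫ b · ∇ψ = 0` for all smooth `ψ`. -/
def DivFree (b : P → P) : Prop :=
  ∀ ψ : P → ℝ, ContDiff ℝ (⊤ : ℕ∞) ψ → Per ψ → ∫ x in Q, ((b x).1 * dx ψ x + (b x).2 * dy ψ x) = 0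

/-- Square integrable functions on the torus. -/
def FunL2 (v : P → ℝ) : Prop := Measurable v ∧ Per v ∧ IntegrableOn (fun x => v x ^ 2) Q

/-- Distributional solutions of `∂_t u + div (b u) = Δu` on `(0,T) × 𝕋²` in `L^∞(0,T; L²)` with datum
`u₀`: `u` is measurable and periodic, `‖u(t)‖₂` is bounded on `(0,T)`, `b u` is integrable, and the
equation holds for all test functions, which are the smooth functions `Φ` on `ℝ × 𝕋²` with
`Φ(t) = 0` for all `t ≥ T'`, for some `T' < T` (their restrictions to `[0,T) × 𝕋²` are the functions in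
`C_c^∞([0,T) × 𝕋²)`). -/
structure IsSolution (T : ℝ) (b : P → P) (u₀ : P → ℝ) (u : ℝ → P → ℝ) : Prop where
  meas : Measurable (fun q : ℝ × P => u q.1 q.2)
  l2 : ∀ t, FunL2 (u t)
  bound : ∃ C : ℝ, ∀ t ∈ Ioo 0 T, ∫ x in Q, u t x ^ 2 ≤ C
  int : Integrable (fun q : ℝ × P => u q.1 q.2 • b q.2)
    ((volume.restrict (Ioo 0 T)).prod (volume.restrict Q))
  eq : ∀ Φ : ℝ → P → ℝ, Tst Φ → (∃ T' < T, ∀ t, T' ≤ t → ∀ x, Φ t x = 0) →
    (∫ t in (0 : ℝ)..T, ∫ x in Q, u t x * D (fun _ => b) Φ t x) + ∫ x in Q, u₀ x * Φ 0 x = 0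

/-- `(G₁, G₂)` is the weak gradient of `w` on the torus. -/
def WeakGradient (w G₁ G₂ : P → ℝ) : Prop := ∀ ψ : P → ℝ, ContDiff ℝ (⊤ : ℕ∞) ψ → Per ψ →
  (∫ x in Q, w x * dx ψ x = - ∫ x in Q, G₁ x * ψ x) ∧
  ∫ x in Q, w x * dy ψ x = - ∫ x in Q, G₂ x * ψ x

/-- The function `u` is in `L²(0,T; H¹)`: there are measurable functions `G₁`, `G₂` of
`(t, x)` such that `(G₁(t), G₂(t))` is the weak gradient of `u(t)` for almost every `t` in `(0,T)`
and the integral of `G₁² + G₂²` over `(0,T) × 𝕋²` is finite. -/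
def Parabolic (T : ℝ) (u : ℝ → P → ℝ) : Prop :=
  ∃ G₁ G₂ : ℝ → P → ℝ, Measurable (fun q : ℝ × P => G₁ q.1 q.2) ∧
    Measurable (fun q : ℝ × P => G₂ q.1 q.2) ∧
    (∀ᵐ t ∂(volume.restrict (Ioo 0 T)), WeakGradient (u t) (G₁ t) (G₂ t)) ∧
    ∫⁻ t in Ioo 0 T, ∫⁻ x in Q, ENNReal.ofReal (G₁ t x ^ 2 + G₂ t x ^ 2) < ⊤

/-- There are a divergence-free autonomous field `b ∈ L²(𝕋²)` and `U ∈ L²(𝕋²)` such that for every
`T > 0` the function `u(t,x) = e^t U(x)`, which is in `L^∞(0,T; L²(𝕋²))`, is a distributional solution of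
`∂_t u + div (b u) = Δu` on `(0,T) × 𝕋²` with datum `U` and is not in `L²(0,T; H¹(𝕋²))`. -/
theorem result : ∃ (b : P → P) (U : P → ℝ), FieldL2 b ∧ DivFree b ∧ FunL2 U ∧
    ∀ T : ℝ, 0 < T → IsSolution T b U (fun t x => Real.exp t * U x) ∧
      ¬ Parabolic T (fun t x => Real.exp t * U x) := by
  obtain ⟨b, U, hb, hdiv, hU, -, h⟩ := Pool.Agent.Q61.ND.all
  refine ⟨b, U, hb, hdiv, hU, fun T hT => ⟨⟨?_, ?_, ?_, ?_, ?_⟩, ?_⟩⟩
  · exact (Real.measurable_exp.comp measurable_fst).mul (hU.1.comp measurable_snd)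
  · intro t
    refine ⟨hU.1.const_mul _, fun x y => ?_, ?_⟩
    · simp only [(hU.2.1 x y).1, (hU.2.1 x y).2, and_self]
    · have := hU.2.2.const_mul (Real.exp t ^ 2)
      refine this.congr (Filter.Eventually.of_forall fun x => ?_)
      simp only
      ring
  · refine ⟨Real.exp T ^ 2 * ∫ x in Q, U x ^ 2, fun t ht => ?_⟩
    have h1 : ∫ x in Q, (Real.exp t * U x) ^ 2 = Real.exp t ^ 2 * ∫ x in Q, U x ^ 2 := by
      rw [← integral_const_mul]
      exact integral_congr_ae (Filter.Eventually.of_forall fun x => by simp only; ring)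
    rw [h1]
    refine mul_le_mul_of_nonneg_right ?_ (integral_nonneg fun x => sq_nonneg _)
    exact pow_le_pow_left₀ (Real.exp_pos t).le (Real.exp_le_exp.2 ht.2.le) 2
  · exact (h T hT).1
  · exact (h T hT).2.1
  · rintro ⟨G₁, G₂, h1, h2, h3, h4⟩
    exact (h T hT).2.2 G₁ G₂ h1 h2 (h3.mono fun t ht ψ a b => (ht ψ a b).1) h4

end Pool.Agent.Results.MP_fe2fb1_an.AutonomousNonparabolic
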